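import Pool.Agent.Helper93.HZ.Spec1

/-!
# HZ, module BIG: big sides of cuts (2.4)
-/

set_option autoImplicit false

open MulAction Pointwise

namespace Pool.Agent.Helper93.HZ

variable {G : Type} [Group G]

theorem big_FC {S : Subgroup G} (h : FC S) : {k : G | k ∈ S ∧ IsOfFinOrder k}.Finite := by
  rcases h with h | h
  · exact (Set.toFinite (S : Set G)).subset fun k hk => hk.1
  · obtain ⟨⟨z, hz⟩, hzgen⟩ := h.exists_generator
    have hz' : ∀ k ∈ S, ∃ n : ℤ, z ^ n = k := by
      intro k hk
      obtain ⟨n, hn⟩ := Subgroup.mem_zpowers_iff.1 (hzgen ⟨k, hk⟩)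
      refine ⟨n, ?_⟩
      have := congrArg Subtype.val hn
      simpa using this
    by_cases hf : IsOfFinOrder z
    · refine (hf.finite_zpowers).subset ?_
      rintro k ⟨hk, -⟩
      obtain ⟨n, hn⟩ := hz' k hk
      exact ⟨n, hn⟩
    · refine (Set.finite_singleton (1 : G)).subset ?_
      rintro k ⟨hk, hkf⟩
      obtain ⟨n, hn⟩ := hz' k hk
      rw [isOfFinOrder_iff_pow_eq_one] at hkf
      obtain ⟨m, hm, hkm⟩ := hkf
      rw [← hn, ← zpow_natCast, ← zpow_mul] at hkm
      have hinj := injective_zpow_iff_not_isOfFinOrder.2 hf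
      have h0 : n * m = 0 := hinj (by simpa using hkm)
      have hm' : (m : ℤ) ≠ 0 := by omega
      have hn0 : n = 0 := by
        rcases mul_eq_zero.1 h0 with h | h
        · exact h
        · exact absurd h hm'
      rw [hn0, zpow_zero] at hn
      exact hn.symm

/-! ### equivariance of links and sides -/

theorem big_LC_smul (K : Cx G) (g : G) {x y z : K.V} (h : z ∈ LC K x y) : g • z ∈ LC K (g • x) (g • y) := by
  induction h with
  | refl => exact Relation.ReflTransGen.refl
  | tail _ hbc ih => exact ih.tail (K.smul_tri g _ _ _ hbc)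

theorem big_LC_eq (K : Cx G) (g : G) (x y : K.V) : g • LC K x y = LC K (g • x) (g • y) := by
  ext z
  constructor
  · rintro ⟨w, hw, rfl⟩
    exact big_LC_smul K g hw
  · intro hz
    refine ⟨g⁻¹ • z, ?_, smul_inv_smul g z⟩
    have := big_LC_smul K g⁻¹ hz
    rwa [inv_smul_smul, inv_smul_smul] at this

theorem big_LC_symm (K : Cx G) {x y z : K.V} (h : z ∈ LC K x y) : y ∈ LC K x z := by
  induction h with
  | refl => exact Relation.ReflTransGen.refl
  | tail _ hbc ih =>
    exact Relation.ReflTransGen.head (K.tri_swap _ _ _ (K.tri_rot _ _ _ (K.tri_rot _ _ _ hbc))) ih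

theorem big_LC_of_mem (K : Cx G) {x y z : K.V} (h : z ∈ LC K x y) : LC K x z = LC K x y := by
  ext w
  constructor
  · intro hw
    exact Relation.ReflTransGen.trans h hw
  · intro hw
    exact Relation.ReflTransGen.trans (big_LC_symm K h) hw

theorem big_B1_smul (K : Cx G) (g : G) {x y : K.V} {C : Set K.V} (h : y ∈ B1 K x C) :
    g • y ∈ B1 K (g • x) (g • C) := by
  obtain ⟨y', hy', hp⟩ := h
  refine ⟨g • y', ⟨y', hy', rfl⟩, ?_⟩
  induction hp with
  | refl => exact Relation.ReflTransGen.refl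
  | tail _ hbc ih =>
    refine ih.tail ⟨K.smul_adj g _ _ hbc.1, ?_, ?_⟩
    · exact fun e => hbc.2.1 (smul_left_cancel g e)
    · exact fun e => hbc.2.2 (smul_left_cancel g e)

theorem big_B1_eq (K : Cx G) (g : G) (x : K.V) (C : Set K.V) :
    B1 K (g • x) (g • C) = g • B1 K x C := by
  ext z
  constructor
  · intro hz
    refine ⟨g⁻¹ • z, ?_, smul_inv_smul g z⟩
    have := big_B1_smul K g⁻¹ hz
    rwa [inv_smul_smul, inv_smul_smul] at this
  · rintro ⟨w, hw, rfl⟩
    exact big_B1_smul K g hw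

theorem big_conj_fin {g k : G} (h : IsOfFinOrder (g⁻¹ * k * g)) : IsOfFinOrder k := by
  have h1 := (MulAut.conj g).toMonoidHom.isOfFinOrder h
  have h2 : (MulAut.conj g).toMonoidHom (g⁻¹ * k * g) = k := by
    show g * (g⁻¹ * k * g) * g⁻¹ = k
    group
  rwa [h2] at h1

theorem big_InE_smul (D : Setup G) (K : Cx G) (g : G) {x : K.V} {C : Set K.V} (h : InE D K x C) :
    InE D K (g • x) (g • C) := by
  obtain ⟨⟨y, hxy, rfl⟩, h2⟩ := h
  refine ⟨⟨g • y, K.smul_adj g _ _ hxy, big_LC_eq K g x y⟩, ?_⟩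
  intro k hk hkC hkE
  apply big_conj_fin (g := g)
  refine h2 (g⁻¹ * k * g) ?_ ?_ ?_
  · rw [mul_smul, mul_smul, hk, inv_smul_smul]
  · rw [mul_smul, mul_smul, hkC, inv_smul_smul]
  · obtain ⟨u, hu⟩ := hkE
    refine ⟨g⁻¹ • u, ?_⟩
    rw [mul_smul, mul_smul, smul_inv_smul, hu]

theorem big_side (D : Setup G) (K : Cx G) (x : K.V) (C : Set K.V) :
    Big D K x C = B1 K x C ∨ Big D K x C = (B1 K x C)ᶜ := by
  unfold Big
  split_ifs
  · exact Or.inl rfl
  · exact Or.inr rfl

/-! ### almost invariant sets -/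

section

variable (hC : ST_CUT) (D : Setup G) (K : Cx G) {x : K.V} {C : Set K.V} (hE : InE D K x C)
  (ψ : G →* G) (hinj : Function.Injective ψ) (hell : ∀ g, Ell D (ψ g))

include hE hinj hell in
theorem big_dart (b c : K.V) : {g : G | ψ g • b = x ∧ ψ g • c ∈ C}.Finite := by
  rcases Set.eq_empty_or_nonempty {g : G | ψ g • b = x ∧ ψ g • c ∈ C} with h | ⟨g0, h0⟩
  · rw [h]
    exact Set.finite_empty
  · have hfin : {k : G | k ∈ stabilizer G x ∧ IsOfFinOrder k}.Finite := big_FC (K.stab x)
    refine Set.Finite.of_finite_image (f := fun g => ψ g * (ψ g0)⁻¹) (hfin.subset ?_) ?_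
    · rintro _ ⟨g, hg, rfl⟩
      have e1 : (ψ g * (ψ g0)⁻¹) • x = x := by
        rw [mul_smul]
        have : (ψ g0)⁻¹ • x = b := by rw [inv_smul_eq_iff]; exact h0.1.symm
        rw [this]
        exact hg.1
      refine ⟨e1, ?_⟩
      obtain ⟨⟨y, hxy, hCy⟩, h2⟩ := hE
      refine h2 _ e1 ?_ ?_
      · have m0 : ψ g0 • c ∈ LC K x y := by rw [← hCy]; exact h0.2
        have m1 : ψ g • c ∈ LC K x y := by rw [← hCy]; exact hg.2
        rw [hCy, ← big_LC_of_mem K m0, big_LC_eq, e1, mul_smul, inv_smul_smul, big_LC_of_mem K m1,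
          big_LC_of_mem K m0]
      · have := hell (g * g0⁻¹)
        rwa [map_mul, map_inv] at this
    · intro g _ g' _ h
      simp only [mul_left_inj] at h
      exact hinj h

include hC hE hinj hell in
theorem big_diff (p p' : K.V) : {g : G | ¬ (ψ g • p ∈ B1 K x C ↔ ψ g • p' ∈ B1 K x C)}.Finite := by
  obtain ⟨-, -, c3, -⟩ := hC G K x C hE.1
  have hp := K.conn p p'
  induction hp with
  | refl =>
    refine Set.finite_empty.subset ?_
    intro g hg
    exact hg Iff.rfl
  | @tail b c _ hbc ih =>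
    refine (ih.union ((big_dart D K hE ψ hinj hell b c).union (big_dart D K hE ψ hinj hell c b))).subset ?_
    intro g hg
    by_cases h1 : (ψ g • p ∈ B1 K x C ↔ ψ g • b ∈ B1 K x C)
    · right
      have hg' : ¬ (ψ g • b ∈ B1 K x C ↔ ψ g • c ∈ B1 K x C) := fun h => hg (h1.trans h)
      have hadj := K.smul_adj (ψ g) _ _ hbc
      by_cases hb : ψ g • b ∈ B1 K x C
      · have hc : ψ g • c ∉ B1 K x C := fun h => hg' ⟨fun _ => h, fun _ => hb⟩
        right
        exact c3 _ _ (K.symm _ _ hadj) hc hb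
      · have hc : ψ g • c ∈ B1 K x C := by
          by_contra h
          exact hg' ⟨fun h' => absurd h' hb, fun h' => absurd h' h⟩
        left
        exact c3 _ _ hadj hb hc
    · left
      exact h1

include hC hE hinj hell in
theorem big_dich (p : K.V) : {g : G | ψ g • p ∈ B1 K x C}.Finite ∨ {g : G | ψ g • p ∉ B1 K x C}.Finite := by
  obtain ⟨-, S, -, hS⟩ := D.oneEnd
  have h1 := hS {g : G | ψ g • p ∈ B1 K x C} ?_
  · exact h1
  · have h2 : (⋃ s ∈ S, (fun g : G => (g, s)) ''
        {g : G | ¬ (ψ g • p ∈ B1 K x C ↔ ψ g • (ψ s • p) ∈ B1 K x C)}).Finite := by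
      refine Set.Finite.biUnion S.finite_toSet fun s _ => ?_
      exact (big_diff hC D K hE ψ hinj hell p (ψ s • p)).image _
    refine h2.subset ?_
    rintro ⟨g, s⟩ ⟨hs, hg⟩
    simp only [Set.mem_iUnion]
    refine ⟨s, hs, g, ?_, rfl⟩
    intro h
    apply hg
    show ψ g • p ∈ B1 K x C ↔ ψ (g * s) • p ∈ B1 K x C
    rw [map_mul, mul_smul]
    exact h

include hC hE hinj hell in
/-- the big side contains almost all of every `ψ(G)`-orbit -/
theorem big_fin {c : G} (hc : ¬ IsOfFinOrder c) (hψc : ψ c = D.θ D.b) (p : K.V) :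
    {g : G | ψ g • p ∉ Big D K x C}.Finite := by
  have hzinj := injective_zpow_iff_not_isOfFinOrder.2 hc
  have hz : ∀ n : ℤ, (D.θ D.b) ^ n = ψ (c ^ n) := by
    intro n
    rw [map_zpow, hψc]
  have hpre : ∀ (p : K.V), {g : G | ψ g • p ∉ B1 K x C}.Finite →
      {n : ℤ | (D.θ D.b) ^ n • p ∉ B1 K x C}.Finite := by
    intro p hp
    have := hp.preimage (f := fun n : ℤ => c ^ n) hzinj.injOn
    refine this.subset ?_
    intro n hn
    show ψ (c ^ n) • p ∉ B1 K x C
    rw [← hz]
    exact hn
  have hpre' : ∀ (p : K.V), {g : G | ψ g • p ∈ B1 K x C}.Finite →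
      {n : ℤ | (D.θ D.b) ^ n • p ∈ B1 K x C}.Finite := by
    intro p hp
    have := hp.preimage (f := fun n : ℤ => c ^ n) hzinj.injOn
    refine this.subset ?_
    intro n hn
    show ψ (c ^ n) • p ∈ B1 K x C
    rw [← hz]
    exact hn
  unfold Big
  split_ifs with hcase
  · rcases big_dich hC D K hE ψ hinj hell p with h | h
    · exfalso
      have h1 := (hpre' p h).union (hcase p)
      refine Set.infinite_univ (α := ℤ) (h1.subset ?_)
      intro n _
      by_cases hn : (D.θ D.b) ^ n • p ∈ B1 K x C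
      · exact Or.inl hn
      · exact Or.inr hn
    · exact h
  · push Not at hcase
    obtain ⟨p0, hp0⟩ := hcase
    have h0 : {g : G | ψ g • p0 ∈ B1 K x C}.Finite := by
      rcases big_dich hC D K hE ψ hinj hell p0 with h | h
      · exact h
      · exact absurd (hpre p0 h) hp0
    refine (h0.union (big_diff hC D K hE ψ hinj hell p p0)).subset ?_
    intro g hg
    have hg' : ψ g • p ∈ B1 K x C := by
      by_contra h
      exact hg h
    by_cases h1 : ψ g • p0 ∈ B1 K x C
    · exact Or.inl h1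
    · right
      intro h
      exact h1 (h.1 hg')

end

/-- the second embedding of `G`: `g ↦ t θ(g) t⁻¹` -/
noncomputable def big_psi (D : Setup G) : G →* G := (MulAut.conj D.t).toMonoidHom.comp D.θ

theorem big_psi_apply (D : Setup G) (g : G) : big_psi D g = D.t * D.θ g * D.t⁻¹ := rfl

theorem big_ell (D : Setup G) (g : G) : Ell D (D.θ g) := by
  refine ⟨D.u0, ?_⟩
  have : D.θ g ∈ stabilizer G D.u0 := by
    rw [D.stab0]
    exact ⟨g, rfl⟩
  exact this

theorem big_ell2 (D : Setup G) (g : G) : Ell D (big_psi D g) := by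
  obtain ⟨u, hu⟩ := big_ell D g
  refine ⟨D.t • u, ?_⟩
  rw [big_psi_apply, mul_smul, mul_smul, inv_smul_smul, hu]

theorem big_psi_inj (D : Setup G) : Function.Injective (big_psi D) := by
  intro g g' h
  rw [big_psi_apply, big_psi_apply] at h
  exact D.θinj (mul_left_cancel (mul_right_cancel h))

omit [Group G] in
theorem big_unique {B X Y : Set G} (hG : Infinite G) (hX : X = B ∨ X = Bᶜ) (hY : Y = B ∨ Y = Bᶜ)
    (h1 : Xᶜ.Finite) (h2 : Yᶜ.Finite) : X = Y := by
  have hne : ∀ Z : Set G, Zᶜ.Finite → Zᶜᶜ.Finite → False := by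
    intro Z h1 h2
    rw [compl_compl] at h2
    refine Set.infinite_univ (α := G) ((h2.union h1).subset ?_)
    rw [Set.union_compl_self]
  rcases hX with rfl | rfl <;> rcases hY with rfl | rfl
  · rfl
  · exact (hne _ h1 h2).elim
  · exact (hne _ h2 h1).elim
  · rfl

theorem st_BIG (hC : ST_CUT) : ST_BIG := by
  intro G _ D K x C hE
  have hG : Infinite G := D.oneEnd.1
  have fin1 : ∀ {x : K.V} {C : Set K.V}, InE D K x C → ∀ p, {g : G | D.θ g • p ∉ Big D K x C}.Finite :=
    fun hE p => big_fin hC D K hE D.θ D.θinj (big_ell D) D.binf rfl p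
  have fin2 : ∀ {x : K.V} {C : Set K.V}, InE D K x C → ∀ p, {g : G | big_psi D g • p ∉ Big D K x C}.Finite :=
    fun hE p => big_fin hC D K hE (big_psi D) (big_psi_inj D) (big_ell2 D) D.ainf
      (by rw [big_psi_apply, D.rel]) p
  refine ⟨fin1 hE, ?_⟩
  -- a criterion for equality
  have crit : ∀ (g : G) {x : K.V} {C : Set K.V}, InE D K x C → ∀ (ψ : G → G) (p : K.V),
      {k : G | ψ k • p ∉ Big D K (g • x) (g • C)}.Finite → {k : G | ψ k • p ∉ g • Big D K x C}.Finite →
      Big D K (g • x) (g • C) = g • Big D K x C := by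
    intro g x C _ ψ p h1 h2
    have s1 := big_side D K (g • x) (g • C)
    rw [big_B1_eq] at s1
    have s2 : g • Big D K x C = g • B1 K x C ∨ g • Big D K x C = (g • B1 K x C)ᶜ := by
      rcases big_side D K x C with h | h
      · left; rw [h]
      · right; rw [h, Set.smul_set_compl]
    have hcon : Big D K (g • x) (g • C) = (g • Big D K x C)ᶜ → False := by
      intro h
      rw [h] at h1
      refine Set.infinite_univ (α := G) ((h1.union h2).subset ?_)
      intro k _
      by_cases hk : ψ k • p ∈ g • Big D K x C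
      · left
        exact fun h' => h' hk
      · right
        exact hk
    rcases s1 with s1 | s1 <;> rcases s2 with s2 | s2
    · rw [s1, s2]
    · exfalso; apply hcon; rw [s1, s2, compl_compl]
    · exfalso; apply hcon; rw [s1, s2]
    · rw [s1, s2]
  have hθ : ∀ (g : G) {x : K.V} {C : Set K.V}, InE D K x C →
      Big D K (D.θ g • x) (D.θ g • C) = D.θ g • Big D K x C := by
    intro g x C hE
    have p : K.V := K.ne.some
    refine crit (D.θ g) hE D.θ p (fin1 (big_InE_smul D K _ hE) p) ?_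
    have h1 := (fin1 hE p).preimage (f := fun k : G => g⁻¹ * k) (mul_right_injective g⁻¹).injOn
    refine h1.subset ?_
    intro k hk
    show D.θ (g⁻¹ * k) • p ∉ Big D K x C
    rw [map_mul, map_inv, mul_smul]
    intro h
    exact hk ⟨_, h, smul_inv_smul _ _⟩
  have ht : ∀ {x : K.V} {C : Set K.V}, InE D K x C →
      Big D K (D.t • x) (D.t • C) = D.t • Big D K x C := by
    intro x C hE
    have p : K.V := K.ne.some
    refine crit D.t hE (big_psi D) p (fin2 (big_InE_smul D K _ hE) p) ?_
    refine (fin1 hE (D.t⁻¹ • p)).subset ?_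
    intro k hk h
    apply hk
    rw [big_psi_apply, mul_smul, mul_smul]
    exact ⟨_, h, rfl⟩
  intro g
  have hg : g ∈ Subgroup.closure ((D.θ.range : Set G) ∪ {D.t}) := by
    rw [D.gen]
    exact Subgroup.mem_top g
  have key : ∀ {x : K.V} {C : Set K.V}, InE D K x C → Big D K (g • x) (g • C) = g • Big D K x C := by
    induction hg using Subgroup.closure_induction with
    | mem k hk =>
      intro x C hE
      rcases hk with ⟨k', rfl⟩ | hk
      · exact hθ k' hE
      · rw [Set.mem_singleton_iff] at hk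
        rw [hk]
        exact ht hE
    | one =>
      intro x C _
      rw [one_smul, one_smul, one_smul]
    | mul a b _ _ iha ihb =>
      intro x C hE
      rw [mul_smul, mul_smul, mul_smul, iha (big_InE_smul D K b hE), ihb hE]
    | inv a _ iha =>
      intro x C hE
      have h1 := iha (big_InE_smul D K a⁻¹ hE)
      rw [smul_inv_smul, smul_inv_smul] at h1
      rw [h1, inv_smul_smul]
  exact key hE

end Pool.Agent.Helper93.HZ
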