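import Pool.Agent.Helper93.HZ.Spec1

/-!
# HZ, module PRU: pruning (2.9-2.11)
-/

set_option autoImplicit false

open MulAction Pointwise

namespace Pool.Agent.Helper93.HZ

variable {G : Type} [Group G]

/-! ### orbit counting -/

theorem pru_orbit_map {α β : Type} [MulAction G α] [MulAction G β] {i : α → β}
    (he : ∀ (g : G) x, i (g • x) = g • i x) (x : α) : orbit G (i x) = i '' orbit G x := by
  ext y
  constructor
  · rintro ⟨g, rfl⟩
    exact ⟨g • x, ⟨g, rfl⟩, he g x⟩
  · rintro ⟨_, ⟨g, rfl⟩, rfl⟩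
    exact ⟨g, (he g x).symm⟩

theorem pru_image {α β : Type} [MulAction G α] [MulAction G β] {i : α → β}
    (he : ∀ (g : G) x, i (g • x) = g • i x) (S : Set α) :
    (fun x : β => orbit G x) '' (i '' S) = (fun O : Set α => i '' O) '' ((fun x : α => orbit G x) '' S) := by
  rw [Set.image_image, Set.image_image]
  refine Set.image_congr fun x _ => ?_
  exact pru_orbit_map he x

theorem pru_oc {α β : Type} [MulAction G α] [MulAction G β] {i : α → β} (hi : Function.Injective i)
    (he : ∀ (g : G) x, i (g • x) = g • i x) (S : Set α) : oc G (i '' S) = oc G S := by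
  unfold oc
  rw [pru_image he S]
  exact Set.ncard_image_of_injective _ (Set.image_injective.2 hi)

theorem pru_fin {α β : Type} [MulAction G α] [MulAction G β] {i : α → β} (hi : Function.Injective i)
    (he : ∀ (g : G) x, i (g • x) = g • i x) {S : Set α} {T : Set β} (hST : i '' S ⊆ T)
    (hT : FinOrb G T) : FinOrb G S := by
  have h1 : ((fun x : β => orbit G x) '' (i '' S)).Finite := hT.subset (Set.image_mono hST)
  rw [pru_image he S] at h1
  exact Set.Finite.of_finite_image h1 ((Set.image_injective.2 hi).injOn)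

theorem pru_oc_le {α : Type} [MulAction G α] {S T : Set α} (hST : S ⊆ T) (hT : FinOrb G T) :
    oc G S ≤ oc G T := Set.ncard_le_ncard (Set.image_mono hST) hT

theorem pru_finite_orbit {α : Type} [MulAction G α] (x : α) (h : (orbit G x).Finite) :
    (stabilizer G x).FiniteIndex := by
  refine ⟨?_⟩
  rw [MulAction.index_stabilizer]
  exact ((Set.ncard_pos h).2 ⟨x, mem_orbit_self x⟩).ne'

/-! ### sides of cuts -/

theorem pru_side (hC : ST_CUT) (K : Cx G) {x : K.V} {C : Set K.V} (hcut : IsCut K x C) {p q : K.V}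
    (hpq : K.adj p q) (hp : p ≠ x) (hq : q ≠ x) : p ∈ B1 K x C ↔ q ∈ B1 K x C := by
  obtain ⟨-, -, h3, -⟩ := hC G K x C hcut
  constructor
  · intro h
    by_contra hcon
    exact hq (h3 q p (K.symm _ _ hpq) hcon h).1
  · intro h
    by_contra hcon
    exact hp (h3 p q hpq hcon h).1

theorem pru_Big (D : Setup G) (K : Cx G) (x : K.V) (C : Set K.V) :
    Big D K x C = B1 K x C ∨ Big D K x C = (B1 K x C)ᶜ := by
  unfold Big
  split_ifs
  · exact Or.inl rfl
  · exact Or.inr rfl

theorem pru_sideBig (hC : ST_CUT) (D : Setup G) (K : Cx G) {x : K.V} {C : Set K.V} (hcut : IsCut K x C)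
    {p q : K.V} (hpq : K.adj p q) (hp : p ≠ x) (hq : q ≠ x) : p ∈ Big D K x C ↔ q ∈ Big D K x C := by
  have h := pru_side hC K hcut hpq hp hq
  rcases pru_Big D K x C with h1 | h1
  · rw [h1]; exact h
  · rw [h1, Set.mem_compl_iff, Set.mem_compl_iff, h]

theorem pru_tri_ne {K : Cx G} {x y z : K.V} (h : K.tri x y z) : x ≠ y ∧ y ≠ z ∧ x ≠ z := by
  refine ⟨?_, ?_, ?_⟩
  · rintro rfl
    exact K.irrefl _ (K.tri_adj _ _ _ h)
  · rintro rfl
    exact K.irrefl _ (K.tri_adj _ _ _ (K.tri_rot _ _ _ h))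
  · rintro rfl
    exact K.irrefl _ (K.tri_adj _ _ _ (K.tri_rot _ _ _ (K.tri_rot _ _ _ h)))

theorem pru_adj13 {K : Cx G} {x y z : K.V} (h : K.tri x y z) : K.adj x z :=
  K.symm _ _ (K.tri_adj _ _ _ (K.tri_rot _ _ _ (K.tri_rot _ _ _ h)))

/-- (A) of 2.10 -/
theorem pru_A (hC : ST_CUT) (D : Setup G) (K : Cx G) {ρ : K.V → K.V}
    (h1 : ∀ y, Bad D K y = ∅ → ρ y = y)
    (h3 : ∀ y y', K.adj y y' → (Bad D K y = ∅ ∧ Bad D K y' = ∅) ∨ ρ y = ρ y')
    (h4 : ∀ y, Bad D K y ≠ ∅ → ∃ C, (ρ y, C) ∈ Bad D K y)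
    {x y y1 : K.V} (hx : Bad D K x = ∅) (hxy : K.adj x y1) (hy1 : Bad D K y1 = ∅)
    (hy : y ∈ LC K x y1) : Bad D K y = ∅ := by
  have hadj : K.adj x y := by
    rcases Relation.ReflTransGen.cases_tail hy with h | ⟨z, -, hz⟩
    · rw [h]; exact hxy
    · exact pru_adj13 hz
  by_contra hcon
  have hρ : ρ y = x := by
    rcases h3 x y hadj with h | h
    · exact absurd h.2 hcon
    · rw [← h, h1 x hx]
  obtain ⟨C, hCb⟩ := h4 y hcon
  rw [hρ] at hCb
  obtain ⟨hE, hyB, hyx⟩ := hCb
  have key : ∀ z, Relation.ReflTransGen (fun p q => K.tri x p q) y1 z →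
      (z ∈ Big D K x C ↔ y1 ∈ Big D K x C) := by
    intro z hz
    induction hz with
    | refl => exact Iff.rfl
    | tail _ hstep ih =>
      rw [← ih]
      obtain ⟨n1, n2, n3⟩ := pru_tri_ne hstep
      exact (pru_sideBig hC D K hE.1 (K.tri_adj _ _ _ (K.tri_rot _ _ _ hstep)) n1.symm n3.symm).symm
  have h5 : y1 ∉ Big D K x C := fun h => hyB ((key y hy).2 h)
  have h6 : (x, C) ∈ Bad D K y1 := by
    refine ⟨hE, h5, ?_⟩
    rintro rfl
    exact K.irrefl _ hxy
  rw [hy1] at h6
  exact h6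

/-- (B) of 2.10 -/
theorem pru_B (hC : ST_CUT) (D : Setup G) (K : Cx G) {x y y' : K.V} (hxy : K.adj x y)
    (hy : Bad D K y = ∅) (hE : InE D K x (LC K x y)) (hxy' : K.adj x y') (hy' : Bad D K y' = ∅) :
    y' ∈ LC K x y := by
  by_contra hcon
  obtain ⟨-, c2, -, c4, -⟩ := hC G K x _ hE.1
  have hyC : y ∈ LC K x y := Relation.ReflTransGen.refl
  have hyB : y ∈ Big D K x (LC K x y) := by
    by_contra h
    have h6 : (x, LC K x y) ∈ Bad D K y := by
      refine ⟨hE, h, ?_⟩
      rintro rfl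
      exact K.irrefl _ hxy
    rw [hy] at h6
    exact h6
  have hBig : Big D K x (LC K x y) = B1 K x (LC K x y) := by
    rcases pru_Big D K x (LC K x y) with h | h
    · exact h
    · rw [h] at hyB
      exact absurd (c2 hyC) hyB
  have h6 : (x, LC K x y) ∈ Bad D K y' := by
    refine ⟨hE, ?_, ?_⟩
    · show y' ∉ Big D K x (LC K x y)
      rw [hBig]
      exact fun h => hcon (c4 y' hxy' h)
    · rintro rfl
      exact K.irrefl _ hxy'
  rw [hy'] at h6
  exact h6

/-- the pruned complex -/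
theorem pru_cx (hR : ST_RET) (hI : ST_INF) (D : Setup G) (K : Cx G) :
    ∃ (K' : Cx G) (i : K'.V → K.V) (ρ : K.V → K'.V), Sub K' K i ∧ (∀ x, Bad D K (i x) = ∅) ∧
      (∀ y, Bad D K y = ∅ → ∃ x, i x = y) ∧ (∀ x, ρ (i x) = x) ∧
      (∀ (g : G) x, ρ (g • x) = g • ρ x) ∧ (∀ x y, K.adj (i x) (i y) → K'.adj x y) ∧
      (∀ x y z, K.tri (i x) (i y) (i z) → K'.tri x y z) ∧
      (∀ x, stabilizer G x = stabilizer G (i x)) := by
  classical
  obtain ⟨ρ, r1, r2, r3, r4, -⟩ := hR G D K
  have hinv : ∀ (g : G) (y : K.V), Bad D K y = ∅ → Bad D K (g • y) = ∅ := by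
    intro g y hy
    have h := r1 (g • y)
    rw [r3, r2 y hy] at h
    exact h
  let act' : MulAction G {y : K.V // Bad D K y = ∅} :=
    { smul := fun g y => ⟨g • y.1, hinv g y.1 y.2⟩
      one_smul := fun y => Subtype.ext (one_smul G y.1)
      mul_smul := fun g h y => Subtype.ext (mul_smul g h y.1) }
  have hval : ∀ (g : G) (y : {y : K.V // Bad D K y = ∅}), ((g • y : {y : K.V // Bad D K y = ∅}) : K.V)
      = g • (y : K.V) := fun g y => rfl
  have hstab : ∀ y : {y : K.V // Bad D K y = ∅}, stabilizer G y = stabilizer G (y : K.V) := by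
    intro y
    ext g
    rw [mem_stabilizer_iff, mem_stabilizer_iff, Subtype.ext_iff, hval]
  have hconn : ∀ x y : K.V, Relation.ReflTransGen K.adj x y →
      Relation.ReflTransGen (fun p q : {y : K.V // Bad D K y = ∅} => K.adj p.1 q.1) ⟨ρ x, r1 x⟩ ⟨ρ y, r1 y⟩ := by
    intro x y hxy
    induction hxy with
    | refl => exact Relation.ReflTransGen.refl
    | @tail b c _ hbc ih =>
      rcases r4 b c hbc with ⟨hb, hc⟩ | h
      · refine ih.tail ?_
        show K.adj (ρ b) (ρ c)
        rw [r2 b hb, r2 c hc]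
        exact hbc
      · have e : (⟨ρ c, r1 c⟩ : {y : K.V // Bad D K y = ∅}) = ⟨ρ b, r1 b⟩ := Subtype.ext h.symm
        rw [e]
        exact ih
  have hρv : ∀ x : {y : K.V // Bad D K y = ∅}, (⟨ρ x.1, r1 x.1⟩ : {y : K.V // Bad D K y = ∅}) = x :=
    fun x => Subtype.ext (r2 x.1 x.2)
  have hconn' : ∀ x y : {y : K.V // Bad D K y = ∅},
      Relation.ReflTransGen (fun p q : {y : K.V // Bad D K y = ∅} => K.adj p.1 q.1) x y := by
    intro x y
    have h := hconn x.1 y.1 (K.conn x.1 y.1)
    rw [hρv, hρv] at h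
    exact h
  have hnbr : ∀ x : {y : K.V // Bad D K y = ∅}, ∃ y : {y : K.V // Bad D K y = ∅}, K.adj x.1 y.1 := by
    intro x
    by_contra hcon
    push Not at hcon
    have hall : ∀ y : {y : K.V // Bad D K y = ∅}, x = y := by
      intro y
      rcases Relation.ReflTransGen.cases_head (hconn' x y) with h | ⟨z, hz, -⟩
      · exact h
      · exact absurd hz (hcon z)
    have hfin : (orbit G x).Finite := (Set.finite_singleton x).subset fun y _ => (hall y).symm
    exact (hI G D).1 (stabilizer G x) (by rw [hstab]; exact K.stab x.1) (pru_finite_orbit x hfin)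
  have hSC : SC (fun p q : {y : K.V // Bad D K y = ∅} => K.adj p.1 q.1)
      (fun p q r : {y : K.V // Bad D K y = ∅} => K.tri p.1 q.1 r.1) := by
    intro H _ c hc1 hc2
    let c' : K.V → K.V → H := fun x y => if ρ x = ρ y then 1 else c ⟨ρ x, r1 x⟩ ⟨ρ y, r1 y⟩
    have hboth : ∀ x y, K.adj x y → ρ x ≠ ρ y → ρ x = x ∧ ρ y = y := by
      intro x y hxy hne
      rcases r4 x y hxy with ⟨hx, hy⟩ | h
      · exact ⟨r2 x hx, r2 y hy⟩
      · exact absurd h hne
    have h1 : ∀ x y, K.adj x y → c' x y * c' y x = 1 := by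
      intro x y hxy
      by_cases h : ρ x = ρ y
      · simp only [c', h, if_true, mul_one]
      · have h' : ¬ ρ y = ρ x := fun e => h e.symm
        obtain ⟨e1, e2⟩ := hboth x y hxy h
        simp only [c', if_neg h, if_neg h']
        refine hc1 _ _ ?_
        show K.adj (ρ x) (ρ y)
        rw [e1, e2]
        exact hxy
    have h2 : ∀ x y z, K.tri x y z → c' x y * c' y z * c' z x = 1 := by
      intro x y z hxyz
      have axy : K.adj x y := K.tri_adj _ _ _ hxyz
      have ayz : K.adj y z := K.tri_adj _ _ _ (K.tri_rot _ _ _ hxyz)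
      have azx : K.adj z x := K.tri_adj _ _ _ (K.tri_rot _ _ _ (K.tri_rot _ _ _ hxyz))
      have hsame : ∀ a b d, K.adj a b → K.adj b d → K.adj d a → ρ a = ρ b → ρ b = ρ d := by
        intro a b d hab hbd hda h
        by_contra hne
        obtain ⟨e1, e2⟩ := hboth b d hbd hne
        have hne' : ρ d ≠ ρ a := fun e => hne (by rw [← h, e])
        obtain ⟨e3, e4⟩ := hboth d a hda hne'
        rw [e1, e4] at h
        rw [h] at hab
        exact K.irrefl _ hab
      by_cases hxy : ρ x = ρ y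
      · have hyz := hsame x y z axy ayz azx hxy
        have hzx : ρ z = ρ x := by rw [hxy, hyz]
        simp only [c', if_pos hxy, if_pos hyz, if_pos hzx, mul_one]
      · by_cases hyz : ρ y = ρ z
        · have hzx := hsame y z x ayz azx axy hyz
          exact absurd (by rw [← hzx, ← hyz]) hxy
        · by_cases hzx : ρ z = ρ x
          · have := hsame z x y azx axy ayz hzx
            exact absurd this hxy
          · obtain ⟨e1, e2⟩ := hboth x y axy hxy
            obtain ⟨-, e3⟩ := hboth y z ayz hyz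
            simp only [c', if_neg hxy, if_neg hyz, if_neg hzx]
            refine hc2 _ _ _ ?_
            show K.tri (ρ x) (ρ y) (ρ z)
            rw [e1, e2, e3]
            exact hxyz
    obtain ⟨f, hf⟩ := K.sc H c' h1 h2
    refine ⟨fun x => f x.1, ?_⟩
    intro x y hxy
    have h3 := hf x.1 y.1 hxy
    have ex := r2 x.1 x.2
    have ey := r2 y.1 y.2
    have hne : ¬ ρ x.1 = ρ y.1 := by
      rw [ex, ey]
      intro e
      rw [e] at hxy
      exact K.irrefl _ hxy
    simp only [c', if_neg hne, hρv] at h3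
    exact h3
  have hinj : Function.Injective (fun y : {y : K.V // Bad D K y = ∅} => (y : K.V)) := Subtype.val_injective
  have hfinE : FinOrb G {p : {y : K.V // Bad D K y = ∅} × {y : K.V // Bad D K y = ∅} | K.adj p.1.1 p.2.1} := by
    refine pru_fin (i := fun p : {y : K.V // Bad D K y = ∅} × {y : K.V // Bad D K y = ∅} =>
      ((p.1 : K.V), (p.2 : K.V))) ?_ ?_ (T := {p : K.V × K.V | K.adj p.1 p.2}) ?_ K.finE
    · rintro ⟨a, b⟩ ⟨a', b'⟩ h
      simp only [Prod.mk.injEq] at h
      exact Prod.ext (Subtype.ext h.1) (Subtype.ext h.2)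
    · rintro g ⟨a, b⟩
      rfl
    · rintro _ ⟨p, hp, rfl⟩
      exact hp
  have hfinT : FinOrb G {s : Set {y : K.V // Bad D K y = ∅} |
      ∃ x y z : {y : K.V // Bad D K y = ∅}, K.tri x.1 y.1 z.1 ∧ s = {x, y, z}} := by
    refine pru_fin (i := fun s : Set {y : K.V // Bad D K y = ∅} => Subtype.val '' s)
      (Set.image_injective.2 hinj) ?_ (T := {s : Set K.V | ∃ x y z, K.tri x y z ∧ s = {x, y, z}}) ?_ K.finT
    · intro g s
      ext y
      constructor
      · rintro ⟨_, ⟨x, hx, rfl⟩, rfl⟩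
        exact ⟨x.1, ⟨x, hx, rfl⟩, rfl⟩
      · rintro ⟨_, ⟨x, hx, rfl⟩, rfl⟩
        exact ⟨g • x, ⟨x, hx, rfl⟩, rfl⟩
    · rintro _ ⟨s, ⟨x, y, z, hxyz, rfl⟩, rfl⟩
      refine ⟨x.1, y.1, z.1, hxyz, ?_⟩
      show Subtype.val '' ({x, y, z} : Set {y : K.V // Bad D K y = ∅}) = {x.1, y.1, z.1}
      rw [Set.image_insert_eq, Set.image_insert_eq, Set.image_singleton]
  refine ⟨{ V := {y : K.V // Bad D K y = ∅}
            act := act'
            adj := fun p q => K.adj p.1 q.1
            tri := fun p q r => K.tri p.1 q.1 r.1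
            ne := ⟨⟨ρ K.ne.some, r1 _⟩⟩
            symm := fun x y h => K.symm _ _ h
            irrefl := fun x h => K.irrefl _ h
            nbr := hnbr
            tri_adj := fun x y z h => K.tri_adj _ _ _ h
            tri_rot := fun x y z h => K.tri_rot _ _ _ h
            tri_swap := fun x y z h => K.tri_swap _ _ _ h
            smul_adj := fun g x y h => K.smul_adj g _ _ h
            smul_tri := fun g x y z h => K.smul_tri g _ _ _ h
            conn := hconn'
            sc := hSC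
            finE := hfinE
            finT := hfinT
            stab := fun x => by rw [hstab]; exact K.stab x.1 }, Subtype.val, fun y => ⟨ρ y, r1 y⟩,
    ⟨hinj, fun g x => rfl, fun x y h => h, fun x y z h => h⟩, fun x => x.2, fun y hy => ⟨⟨y, hy⟩, rfl⟩,
    hρv, fun g x => Subtype.ext (r3 g x), fun x y h => h, fun x y z h => h, hstab⟩

theorem pru_image_smul {α β : Type} [MulAction G α] [MulAction G β] {i : α → β}
    (he : ∀ (g : G) x, i (g • x) = g • i x) (g : G) (s : Set α) : i '' (g • s) = g • (i '' s) := by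
  ext y
  constructor
  · rintro ⟨_, ⟨x, hx, rfl⟩, rfl⟩
    exact ⟨i x, ⟨x, hx, rfl⟩, (he g x).symm⟩
  · rintro ⟨_, ⟨x, hx, rfl⟩, rfl⟩
    exact ⟨g • x, ⟨x, hx, rfl⟩, he g x⟩

theorem pru_tri_of_set {K : Cx G} {x y z a b c : K.V} (h : K.tri x y z)
    (he : ({a, b, c} : Set K.V) = {x, y, z}) (hab : a ≠ b) (hbc : b ≠ c) (hac : a ≠ c) : K.tri a b c := by
  have ha : a ∈ ({x, y, z} : Set K.V) := by rw [← he]; simp
  have hb : b ∈ ({x, y, z} : Set K.V) := by rw [← he]; simp
  have hc : c ∈ ({x, y, z} : Set K.V) := by rw [← he]; simp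
  have h1 := K.tri_rot _ _ _ h
  have h2 := K.tri_rot _ _ _ h1
  have h3 := K.tri_swap _ _ _ h
  have h4 := K.tri_rot _ _ _ h3
  have h5 := K.tri_rot _ _ _ h4
  simp only [Set.mem_insert_iff, Set.mem_singleton_iff] at ha hb hc
  rcases ha with rfl | rfl | rfl <;> rcases hb with rfl | rfl | rfl <;>
    rcases hc with rfl | rfl | rfl <;>
    first
    | exact absurd rfl hab
    | exact absurd rfl hbc
    | exact absurd rfl hac
    | assumption

theorem st_PRU (hC : ST_CUT) (hR : ST_RET) (hFV : ST_FV) (hI : ST_INF) (hTE : ST_TFE) (hTD : ST_TFD) :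
    ST_PRU := by
  classical
  intro G _ D K hmin
  obtain ⟨K', i, ρ, hsub, hi1, hi2, hρ1, hρ2, hadj, htri, hst⟩ := pru_cx hR hI D K
  obtain ⟨ρ0, q1, q2, q3, q4, q5⟩ := hR G D K
  have hinv : ∀ (g : G) (y : K.V), Bad D K y = ∅ → Bad D K (g • y) = ∅ := by
    intro g y hy
    have h := q1 (g • y)
    rw [q3, q2 y hy] at h
    exact h
  -- triangles
  have hTimg : (fun s : Set K'.V => i '' s) '' {s : Set K'.V | ∃ x y z, K'.tri x y z ∧ s = {x, y, z}} ⊆
      {s : Set K.V | ∃ x y z, K.tri x y z ∧ s = {x, y, z}} := by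
    rintro _ ⟨s, ⟨x, y, z, hxyz, rfl⟩, rfl⟩
    refine ⟨i x, i y, i z, hsub.tri _ _ _ hxyz, ?_⟩
    show i '' ({x, y, z} : Set K'.V) = {i x, i y, i z}
    rw [Set.image_insert_eq, Set.image_insert_eq, Set.image_singleton]
  have hoc : oc G ((fun s : Set K'.V => i '' s) '' {s : Set K'.V | ∃ x y z, K'.tri x y z ∧ s = {x, y, z}})
      = rr K' := pru_oc (Set.image_injective.2 hsub.inj) (fun g s => pru_image_smul hsub.equiv g s) _
  have hrr1 : rr K' ≤ rr K := by
    rw [← hoc]
    exact pru_oc_le hTimg K.finT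
  have hrr : rr K' = rr K := le_antisymm hrr1 (hmin K')
  have hallT : ∀ x y z, K.tri x y z → Bad D K x = ∅ ∧ Bad D K y = ∅ ∧ Bad D K z = ∅ := by
    have heq := Set.eq_of_subset_of_ncard_le (Set.image_mono (f := fun x : Set K.V => orbit G x) hTimg)
      (by
        show rr K ≤ oc G _
        rw [hoc, hrr]) K.finT
    intro x y z hxyz
    have hmem : orbit G ({x, y, z} : Set K.V) ∈ (fun x : Set K.V => orbit G x) ''
        {s : Set K.V | ∃ x y z, K.tri x y z ∧ s = {x, y, z}} := ⟨_, ⟨x, y, z, hxyz, rfl⟩, rfl⟩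
    rw [← heq] at hmem
    obtain ⟨_, ⟨s, ⟨a, b, c, habc, rfl⟩, rfl⟩, h⟩ := hmem
    have h1 : ({x, y, z} : Set K.V) ∈ orbit G (i '' ({a, b, c} : Set K'.V)) := by
      have : orbit G (i '' ({a, b, c} : Set K'.V)) = orbit G ({x, y, z} : Set K.V) := h
      rw [this]
      exact mem_orbit_self _
    obtain ⟨g, hg⟩ := h1
    have hg' : g • (i '' ({a, b, c} : Set K'.V)) = ({x, y, z} : Set K.V) := hg
    have hin : ∀ w ∈ ({x, y, z} : Set K.V), Bad D K w = ∅ := by
      intro w hw
      rw [← hg'] at hw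
      obtain ⟨_, ⟨v, -, rfl⟩, rfl⟩ := hw
      exact hinv g _ (hi1 v)
    exact ⟨hin x (by simp), hin y (by simp), hin z (by simp)⟩
  have hlift : ∀ x y z, K.tri x y z → ∃ x' y' z', i x' = x ∧ i y' = y ∧ i z' = z ∧ K'.tri x' y' z' := by
    intro x y z h
    obtain ⟨h1, h2, h3⟩ := hallT x y z h
    obtain ⟨x', rfl⟩ := hi2 x h1
    obtain ⟨y', rfl⟩ := hi2 y h2
    obtain ⟨z', rfl⟩ := hi2 z h3
    exact ⟨x', y', z', rfl, rfl, rfl, htri _ _ _ h⟩
  -- orbits in `K'` are infinite
  have hinf : ∀ x : K'.V, ¬ (orbit G x).Finite := fun x h =>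
    (hI G D).1 (stabilizer G x) (K'.stab x) (pru_finite_orbit x h)
  have hpair : ∀ x y : K'.V, (∀ z, K'.adj x z → z = y) → (∀ z, K'.adj y z → z = x) → False := by
    intro x y h1 h2
    have hall : ∀ z, Relation.ReflTransGen K'.adj x z → z = x ∨ z = y := by
      intro z hz
      induction hz with
      | refl => exact Or.inl rfl
      | tail _ hbc ih =>
        rcases ih with rfl | rfl
        · exact Or.inr (h1 _ hbc)
        · exact Or.inl (h2 _ hbc)
    refine hinf x (((Set.finite_singleton y).insert x).subset fun z _ => ?_)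
    exact hall z (K'.conn x z)
  -- links
  have hEll : ∀ x : K'.V, EllV D K' x ↔ EllV D K (i x) := by
    intro x
    have e : ∀ g : G, g • x = x ↔ g • i x = i x := by
      intro g
      rw [← mem_stabilizer_iff, ← mem_stabilizer_iff, hst]
    unfold EllV
    simp only [e]
  have hInE : ∀ x : K.V, (Finite (stabilizer G x) ∨ ¬ EllV D K x) → ∀ y, K.adj x y →
      InE D K x (LC K x y) := by
    intro x hx y hxy
    refine ⟨⟨y, hxy, rfl⟩, ?_⟩
    intro g hg _ hgE
    rcases hx with hx | hx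
    · have h1 : IsOfFinOrder (⟨g, hg⟩ : stabilizer G x) := isOfFinOrder_of_finite _
      exact (Subgroup.subtype _).isOfFinOrder h1
    · by_contra hgi
      rcases K.stab x with hf | hc
      · have := hf
        obtain ⟨u, hu⟩ := hTE G D (stabilizer G x) hf
        exact hx ⟨u, fun k hk => hu k hk⟩
      · obtain ⟨⟨z, hz⟩, hzgen⟩ := hc.exists_generator
        have hz' : ∀ k ∈ stabilizer G x, ∃ n : ℤ, z ^ n = k := by
          intro k hk
          obtain ⟨n, hn⟩ := Subgroup.mem_zpowers_iff.1 (hzgen ⟨k, hk⟩)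
          refine ⟨n, ?_⟩
          have := congrArg Subtype.val hn
          simpa using this
        obtain ⟨n, hn⟩ := hz' g hg
        have hn0 : n ≠ 0 := by
          rintro rfl
          rw [zpow_zero] at hn
          exact hgi (hn ▸ IsOfFinOrder.one)
        obtain ⟨u, hu⟩ := hgE
        have hEz : Ell D (z ^ n.natAbs) := by
          rcases Int.natAbs_eq n with h | h
          · refine ⟨u, ?_⟩
            rw [h, zpow_natCast] at hn
            rw [hn]
            exact hu
          · refine ⟨u, ?_⟩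
            rw [h, zpow_neg, zpow_natCast] at hn
            have h2 : z ^ n.natAbs = g⁻¹ := by rw [← hn, inv_inv]
            rw [h2, inv_smul_eq_iff]
            exact hu.symm
        obtain ⟨v, hv⟩ := (hTD G D z).1 n.natAbs (Int.natAbs_pos.2 hn0) hEz
        refine hx ⟨v, fun k hk => ?_⟩
        obtain ⟨m, hm⟩ := hz' k hk
        have hzs : z ∈ stabilizer G v := hv
        rw [← hm]
        exact (stabilizer G v).zpow_mem hzs m
  -- (B) for paths in the link
  have hlink : ∀ x y y' : K'.V, K'.adj x y → K'.adj x y' → InE D K (i x) (LC K (i x) (i y)) →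
      Relation.ReflTransGen (fun p q => K'.tri x p q) y y' := by
    intro x y y' hxy hxy' hE
    have h1 : i y' ∈ LC K (i x) (i y) :=
      pru_B hC D K (hsub.adj _ _ hxy) (hi1 y) hE (hsub.adj _ _ hxy') (hi1 y')
    have h2 : ∀ w, Relation.ReflTransGen (fun p q => K.tri (i x) p q) (i y) w → ∀ w', i w' = w →
        Relation.ReflTransGen (fun p q => K'.tri x p q) y w' := by
      intro w hw
      induction hw with
      | refl =>
        intro w' hw'
        rw [hsub.inj hw']
      | @tail b c _ hbc ih =>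
        intro w' hw'
        obtain ⟨x1, b1, c1, e1, e2, e3, ht⟩ := hlift _ _ _ hbc
        have ex : x1 = x := hsub.inj e1
        have ec : c1 = w' := hsub.inj (e3.trans hw'.symm)
        subst ex
        subst ec
        exact (ih b1 e2).tail ht
    exact h2 _ h1 y' rfl
  -- R2, connectedness
  have hR2a : ∀ x, (Finite (stabilizer G x) ∨ ¬ EllV D K' x) → ∀ y y', K'.adj x y → K'.adj x y' →
      Relation.ReflTransGen (fun p q => K'.tri x p q) y y' := by
    intro x hx y y' hxy hxy'
    refine hlink x y y' hxy hxy' (hInE (i x) ?_ (i y) (hsub.adj _ _ hxy))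
    rw [← hst, ← hEll]
    exact hx
  -- if the link is connected and `y` is isolated in it, the link is `{y}`
  have hiso : ∀ x y y' : K'.V, (¬ ∃ z, K'.tri x y z) →
      Relation.ReflTransGen (fun p q => K'.tri x p q) y y' → y' = y := by
    intro x y y' hno h
    rcases Relation.ReflTransGen.cases_head h with h | ⟨z, hz, -⟩
    · exact h.symm
    · exact absurd ⟨z, hz⟩ hno
  have hR1 : ∀ x y, K'.adj x y → Finite ↥(stabilizer G x ⊓ stabilizer G y) → ∃ z, K'.tri x y z := by
    intro x y hxy hfin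
    by_contra hno
    have hno' : ¬ ∃ z, K'.tri y x z := by
      rintro ⟨z, hz⟩
      exact hno ⟨z, K'.tri_swap _ _ _ hz⟩
    -- the component is a single vertex, hence the cut is in EE
    have hcut : ∀ x y : K'.V, K'.adj x y → (¬ ∃ z, K'.tri x y z) →
        Finite ↥(stabilizer G x ⊓ stabilizer G y) → InE D K (i x) (LC K (i x) (i y)) := by
      intro x y hxy hno hfin
      refine ⟨⟨i y, hsub.adj _ _ hxy, rfl⟩, ?_⟩
      have hLC : LC K (i x) (i y) = {i y} := by
        ext w
        constructor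
        · intro hw
          rcases Relation.ReflTransGen.cases_head hw with h | ⟨z, hz, -⟩
          · exact h.symm
          · exfalso
            obtain ⟨x1, y1, z1, e1, e2, e3, ht⟩ := hlift _ _ _ hz
            have ex : x1 = x := hsub.inj e1
            have ey : y1 = y := hsub.inj e2
            subst ex
            subst ey
            exact hno ⟨z1, ht⟩
        · rintro rfl
          exact Relation.ReflTransGen.refl
      intro g hg hgC _
      rw [hLC, Set.smul_set_singleton, Set.singleton_eq_singleton_iff] at hgC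
      have h1 : g ∈ stabilizer G x ⊓ stabilizer G y := by
        rw [hst, hst]
        exact ⟨hg, hgC⟩
      have h2 : IsOfFinOrder (⟨g, h1⟩ : ↥(stabilizer G x ⊓ stabilizer G y)) := isOfFinOrder_of_finite _
      exact (Subgroup.subtype _).isOfFinOrder h2
    refine hpair x y (fun z hz => ?_) (fun z hz => ?_)
    · exact hiso x y z hno (hlink x y z hxy hz (hcut x y hxy hno hfin))
    · refine hiso y x z hno' (hlink y x z (K'.symm _ _ hxy) hz (hcut y x (K'.symm _ _ hxy) hno' ?_))
      rw [inf_comm]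
      exact hfin
  have hR2b : ∀ x, (Finite (stabilizer G x) ∨ ¬ EllV D K' x) → ∀ y, K'.adj x y → ∃ z, K'.tri x y z := by
    intro x hx y hxy
    by_contra hno
    have hno' : ¬ ∃ z, K'.tri y x z := by
      rintro ⟨z, hz⟩
      exact hno ⟨z, K'.tri_swap _ _ _ hz⟩
    have hfin : ¬ Finite ↥(stabilizer G x ⊓ stabilizer G y) := fun h => hno (hR1 x y hxy h)
    have hx1 : ¬ Finite (stabilizer G x) := by
      intro h
      apply hfin
      exact Finite.of_injective (Subgroup.inclusion (inf_le_left : stabilizer G x ⊓ stabilizer G y ≤ stabilizer G x))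
        (Subgroup.inclusion_injective _)
    have hx2 : ¬ EllV D K' x := by
      rcases hx with h | h
      · exact absurd h hx1
      · exact h
    -- the link of `x` is `{y}`
    have hLx : ∀ z, K'.adj x z → z = y := fun z hz => hiso x y z hno (hR2a x hx y z hxy hz)
    have hle : ∀ g : G, g • x = x → g • y = y := by
      intro g hg
      refine hLx _ ?_
      have := K'.smul_adj g _ _ hxy
      rwa [hg] at this
    have hy2 : ¬ EllV D K' y := by
      rintro ⟨u, hu⟩
      exact hx2 ⟨u, fun g hg => hu g (hle g hg)⟩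
    exact hpair x y hLx fun z hz => hiso y x z hno' (hR2a y (Or.inr hy2) x z (K'.symm _ _ hxy) hz)
  have hR3 : ∀ x : K'.V, stabilizer G x ≠ ⊥ := by
    intro x hx
    have hfin : Finite (stabilizer G x) := by
      rw [hx]
      infer_instance
    obtain ⟨y, hy⟩ := K'.nbr x
    obtain ⟨z, hz⟩ := hR2b x (Or.inl hfin) y hy
    have := hFV G D K hmin _ _ _ (hsub.tri _ _ _ hz)
    rw [← hst] at this
    exact this hx
  refine ⟨K', i, ρ, hsub, hρ1, hρ2, hlift, hadj, ⟨hR1, fun x hx => ⟨hR2a x hx, hR2b x hx⟩, hR3⟩, hrr, ?_, ?_⟩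
  · -- nn
    have h1 : i '' {x : K'.V | (∃ y z, K'.tri x y z) ∧ Finite (stabilizer G x) ∧ stabilizer G x ≠ ⊥} =
        {x : K.V | (∃ y z, K.tri x y z) ∧ Finite (stabilizer G x) ∧ stabilizer G x ≠ ⊥} := by
      ext w
      constructor
      · rintro ⟨x, ⟨⟨y, z, hxyz⟩, hf, hb⟩, rfl⟩
        rw [hst] at hf hb
        exact ⟨⟨i y, i z, hsub.tri _ _ _ hxyz⟩, hf, hb⟩
      · rintro ⟨⟨y, z, hxyz⟩, hf, hb⟩
        obtain ⟨x', y', z', rfl, rfl, rfl, ht⟩ := hlift _ _ _ hxyz
        rw [← hst] at hf hb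
        exact ⟨x', ⟨⟨y', z', ht⟩, hf, hb⟩, rfl⟩
    unfold nn
    rw [← h1]
    exact (pru_oc hsub.inj hsub.equiv _).symm
  · -- dd
    have h1 : (fun p : K'.V × K'.V => (i p.1, i p.2)) '' {p : K'.V × K'.V | K'.adj p.1 p.2 ∧ Fr K' p.1 p.2} ⊆
        {p : K.V × K.V | K.adj p.1 p.2 ∧ Fr K p.1 p.2} := by
      rintro _ ⟨p, ⟨ha, hf⟩, rfl⟩
      refine ⟨hsub.adj _ _ ha, fun g h1 h2 => ?_⟩
      have e1 : g ∈ stabilizer G p.1 := by rw [hst]; exact h1
      have e2 : g ∈ stabilizer G p.2 := by rw [hst]; exact h2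
      exact hf g e1 e2
    have h2 : oc G ((fun p : K'.V × K'.V => (i p.1, i p.2)) ''
        {p : K'.V × K'.V | K'.adj p.1 p.2 ∧ Fr K' p.1 p.2}) = dd K' := by
      refine pru_oc ?_ ?_ _
      · rintro ⟨a, b⟩ ⟨a', b'⟩ h
        simp only [Prod.mk.injEq] at h
        exact Prod.ext (hsub.inj h.1) (hsub.inj h.2)
      · rintro g ⟨a, b⟩
        exact Prod.ext (hsub.equiv g a) (hsub.equiv g b)
    rw [← h2]
    refine pru_oc_le h1 ?_
    refine Set.Finite.subset K.finE (Set.image_mono ?_)
    rintro p ⟨hp, -⟩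
    exact hp

end Pool.Agent.Helper93.HZ
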